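import Pool.Agent.KS6_84.FBM.Main

/-! # Bakry–Émery constants of fractional Brownian fields and fractional Laplacians

The kernel `R_γ(s,t) = (|s|^γ + |t|^γ - |s-t|^γ)/2` on `ℝ^d` (Lévy's fractional Brownian field)
satisfies `R^{∘2} ≥ κ R` with one constant `κ > 0` for all `δ`-separated finite configurations
(not only for the integer points `1, …, N` of the line), in every dimension `d ≥ 1`, exactly for
`γ < 2`; hence the fractional Laplacian `-(-Δ)^{γ/2}` on the torus `𝕋^d` satisfies the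
Bakry–Émery condition `Γ₂ ≥ κ Γ` with `κ > 0`, for every `d ≥ 1` and `γ ∈ (0,2)`. -/

namespace Pool.Agent.Results.MP_271f9a_pr.SeparatedFields

open Pool.Agent.KS6_84.FBM Set

/-- `ℝ^d` with the Euclidean norm. -/
abbrev Eu (d : ℕ) := EuclideanSpace ℝ (Fin d)

/-- `R_γ(s,t) = (|s|^γ + |t|^γ - |s-t|^γ)/2`. -/
noncomputable def RR {d : ℕ} (γ : ℝ) (s t : Eu d) : ℝ := (‖s‖ ^ γ + ‖t‖ ^ γ - ‖s - t‖ ^ γ) / 2

/-- The Hermitian form `a^* M a` of a real symmetric matrix. -/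
noncomputable def form {ι : Type} [Fintype ι] (M : ι → ι → ℝ) (a : ι → ℂ) : ℝ :=
  (∑ i, ∑ j, (starRingEnd ℂ) (a i) * (M i j : ℂ) * a j).re

/-- `δ`-separated configurations of points, also at distance at least `δ` from the origin. -/
def Sep {d : ℕ} {ι : Type} (δ : ℝ) (s : ι → Eu d) : Prop :=
  (∀ i, δ ≤ ‖s i‖) ∧ ∀ i j, i ≠ j → δ ≤ ‖s i - s j‖

/-- `κ_d(γ, δ)`: the infimum of `a^* R^{∘2} a / a^* R a` over all finite `δ`-separated
configurations in `ℝ^d` and all vectors `a` with `a^* R a > 0`. -/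
noncomputable def kap (d : ℕ) (γ δ : ℝ) : ℝ :=
  sInf {q | ∃ (ι : Type) (_ : Fintype ι) (s : ι → Eu d) (a : ι → ℂ), Sep δ s ∧
    0 < form (fun i j => RR γ (s i) (s j)) a ∧
    q = form (fun i j => RR γ (s i) (s j) ^ 2) a / form (fun i j => RR γ (s i) (s j)) a}

/-- The character `x ↦ e^{i n·x}` of `𝕋^d = (ℝ/2πℤ)^d`. -/
noncomputable def ch {d : ℕ} (n : Fin d → ℤ) : (Fin d → ℝ) → ℂ :=
  fun x => Complex.exp (Complex.I * ∑ k, (n k : ℂ) * (x k : ℂ))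

/-- The frequency `n ∈ ℤ^d` as a point of `ℝ^d`. -/
noncomputable def fr {d : ℕ} (n : Fin d → ℤ) : Eu d := WithLp.toLp 2 fun k => (n k : ℝ)

/-- The iterated carré du champ operators of a linear operator `L`: `Γ₀(f,g) = f ḡ`,
`Γ_{k+1}(f,g) = (L Γ_k(f,g) - Γ_k(f, L g) - Γ_k(L f, g))/2`. -/
noncomputable def Gam {d : ℕ} (L : ((Fin d → ℝ) → ℂ) →ₗ[ℂ] ((Fin d → ℝ) → ℂ)) :
    ℕ → ((Fin d → ℝ) → ℂ) → ((Fin d → ℝ) → ℂ) → ((Fin d → ℝ) → ℂ)
  | 0, f, g => fun x => f x * (starRingEnd ℂ) (g x)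
  | k + 1, f, g => (1 / 2 : ℂ) • (L (Gam L k f g) - Gam L k f (L g) - Gam L k (L f) g)

lemma form_eq {ι : Type} [Fintype ι] (M : ι → ι → ℝ) (a : ι → ℂ) :
    form M a = Q M (fun i => (a i).re) + Q M fun i => (a i).im := by
  simp only [form, Q, Complex.re_sum, ← Finset.sum_add_distrib]
  refine Finset.sum_congr rfl fun i _ => Finset.sum_congr rfl fun j _ => ?_
  simp

lemma form_ofReal {ι : Type} [Fintype ι] (M : ι → ι → ℝ) (x : ι → ℝ) :
    form M (fun i => (x i : ℂ)) = Q M x := by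
  rw [form_eq]; simp [Q]

lemma RR_two {d : ℕ} (s t : Eu d) : RR 2 s t = inner ℝ s t := by
  have := norm_sub_sq_real s t
  rw [RR, Real.rpow_two, Real.rpow_two, Real.rpow_two, this]; ring

lemma RR_self {d : ℕ} {γ : ℝ} (h0 : 0 < γ) (s : Eu d) : RR γ s s = ‖s‖ ^ γ := by
  simp [RR, Real.zero_rpow h0.ne']

lemma RR_psd {d : ℕ} {γ δ : ℝ} (h0 : 0 < γ) (h2 : γ ≤ 2) (hδ : 0 < δ) {ι : Type} [Fintype ι]
    {s : ι → Eu d} (hs : Sep δ s) (x : ι → ℝ) : 0 ≤ Q (fun i j => RR γ (s i) (s j)) x := by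
  rcases h2.lt_or_eq with h | rfl
  · obtain ⟨c, hc, h3⟩ := main_lower (E := Eu d) h0 h hδ
    exact le_trans (by positivity) (h3 ι s hs.1 hs.2 x)
  · have : Q (fun i j => RR 2 (s i) (s j)) x = ‖∑ i, x i • s i‖ ^ 2 := by
      rw [← real_inner_self_eq_norm_sq, sum_inner, Q]
      refine Finset.sum_congr rfl fun i _ => ?_
      rw [inner_sum]
      refine Finset.sum_congr rfl fun j _ => ?_
      rw [real_inner_smul_left, real_inner_smul_right, RR_two]; ring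
    rw [this]; positivity

lemma form2_nonneg {d : ℕ} {γ δ : ℝ} (h0 : 0 < γ) (h2 : γ ≤ 2) (hδ : 0 < δ) {ι : Type}
    [Fintype ι] {s : ι → Eu d} (hs : Sep δ s) (k : ℕ) (a : ι → ℂ) :
    0 ≤ form (fun i j => RR γ (s i) (s j) ^ k) a := by
  rw [form_eq]
  exact add_nonneg (pow_psd (fun i j => R_symm γ (s i) (s j)) (RR_psd h0 h2 hδ hs) k _)
    (pow_psd (fun i j => R_symm γ (s i) (s j)) (RR_psd h0 h2 hδ hs) k _)

lemma bdd {d : ℕ} {γ δ : ℝ} (h0 : 0 < γ) (h2 : γ ≤ 2) (hδ : 0 < δ) :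
    BddBelow {q | ∃ (ι : Type) (_ : Fintype ι) (s : ι → Eu d) (a : ι → ℂ), Sep δ s ∧
    0 < form (fun i j => RR γ (s i) (s j)) a ∧
    q = form (fun i j => RR γ (s i) (s j) ^ 2) a / form (fun i j => RR γ (s i) (s j)) a} := by
  refine ⟨0, ?_⟩
  rintro q ⟨ι, _, s, a, hs, ha, rfl⟩
  exact div_nonneg (form2_nonneg h0 h2 hδ hs 2 a) ha.le

/-- A unit vector. -/
noncomputable def e1 {d : ℕ} (hd : 1 ≤ d) : Eu d := EuclideanSpace.single ⟨0, hd⟩ 1

lemma e1_norm {d : ℕ} (hd : 1 ≤ d) : ‖e1 hd‖ = 1 := by simp [e1]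

lemma one_mem {d : ℕ} (hd : 1 ≤ d) {γ : ℝ} (h0 : 0 < γ) :
    (1 : ℝ) ∈ {q | ∃ (ι : Type) (_ : Fintype ι) (s : ι → Eu d) (a : ι → ℂ), Sep 1 s ∧
    0 < form (fun i j => RR γ (s i) (s j)) a ∧
    q = form (fun i j => RR γ (s i) (s j) ^ 2) a / form (fun i j => RR γ (s i) (s j)) a} := by
  refine ⟨Unit, inferInstance, fun _ => e1 hd, fun _ => 1, ⟨fun _ => (e1_norm hd).ge,
    fun i j h => absurd (Subsingleton.elim i j) h⟩, ?_, ?_⟩
  · simp [form, RR_self h0, e1_norm]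
  · simp [form, RR_self h0, e1_norm]

lemma kap_le {d : ℕ} {γ δ : ℝ} (h0 : 0 < γ) (h2 : γ ≤ 2) (hδ : 0 < δ) {ι : Type} [Fintype ι]
    {s : ι → Eu d} (hs : Sep δ s) (a : ι → ℂ)
    (ha : 0 < form (fun i j => RR γ (s i) (s j)) a) :
    kap d γ δ * form (fun i j => RR γ (s i) (s j)) a ≤
      form (fun i j => RR γ (s i) (s j) ^ 2) a := by
  rw [← le_div_iff₀ ha]
  exact csInf_le (bdd h0 h2 hδ) ⟨ι, _, s, a, hs, ha, rfl⟩

lemma kap_powQ {d : ℕ} {γ δ : ℝ} (h0 : 0 < γ) (h2 : γ ≤ 2) (hδ : 0 < δ) {ι : Type} [Fintype ι]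
    {s : ι → Eu d} (hs : Sep δ s) (k : ℕ) (x : ι → ℝ) :
    kap d γ δ * Q (fun i j => RR γ (s i) (s j) ^ (k + 1)) x ≤
      Q (fun i j => RR γ (s i) (s j) ^ (k + 2)) x := by
  have h1 : ∀ x : ι → ℝ, 0 ≤ Q (fun i j => RR γ (s i) (s j) ^ 2 -
      kap d γ δ * RR γ (s i) (s j)) x := by
    intro x
    rw [Q_sub (fun i j => RR γ (s i) (s j) ^ 2) (fun i j => kap d γ δ * RR γ (s i) (s j)),
      Q_const_mul]
    rcases (RR_psd h0 h2 hδ hs x).lt_or_eq with h | h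
    · have := kap_le h0 h2 hδ hs (fun i => (x i : ℂ)) (by rw [form_ofReal]; exact h)
      rw [form_ofReal, form_ofReal] at this
      linarith
    · rw [← h]
      have := form2_nonneg h0 h2 hδ hs 2 (fun i => (x i : ℂ))
      rw [form_ofReal] at this
      linarith
  have hsy : ∀ i j, RR γ (s i) (s j) = RR γ (s j) (s i) := fun i j => R_symm γ (s i) (s j)
  have h3 := schur (fun i j => by rw [hsy]) (fun i j => by rw [hsy])
    (pow_psd hsy (RR_psd h0 h2 hδ hs) k) h1 x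
  have e : Q (fun i j => RR γ (s i) (s j) ^ k * (RR γ (s i) (s j) ^ 2 -
      kap d γ δ * RR γ (s i) (s j))) x = Q (fun i j => RR γ (s i) (s j) ^ (k + 2)) x -
      kap d γ δ * Q (fun i j => RR γ (s i) (s j) ^ (k + 1)) x := by
    rw [← Q_const_mul, ← Q_sub]
    congr 1
    ext i j
    ring
  linarith

lemma kap_pow {d : ℕ} {γ δ : ℝ} (h0 : 0 < γ) (h2 : γ ≤ 2) (hδ : 0 < δ) {ι : Type} [Fintype ι]
    {s : ι → Eu d} (hs : Sep δ s) (k : ℕ) (a : ι → ℂ) :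
    kap d γ δ * form (fun i j => RR γ (s i) (s j) ^ (k + 1)) a ≤
      form (fun i j => RR γ (s i) (s j) ^ (k + 2)) a := by
  rw [form_eq, form_eq, mul_add]
  exact add_le_add (kap_powQ h0 h2 hδ hs k _) (kap_powQ h0 h2 hδ hs k _)

lemma form_pos {d : ℕ} {γ δ : ℝ} (h0 : 0 < γ) (h2 : γ < 2) (hδ : 0 < δ) {ι : Type} [Fintype ι]
    {s : ι → Eu d} (hs : Sep δ s) {a : ι → ℂ} (ha : a ≠ 0) :
    0 < form (fun i j => RR γ (s i) (s j)) a := by
  obtain ⟨c, hc, h3⟩ := main_lower (E := Eu d) h0 h2 hδ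
  obtain ⟨k, hk⟩ := Function.ne_iff.1 ha
  have h4 := Complex.normSq_pos.2 hk
  rw [Complex.normSq_apply] at h4
  have h5 : ∀ x : ι → ℝ, c * x k ^ 2 ≤ Q (fun i j => RR γ (s i) (s j)) x := by
    intro x
    refine le_trans (mul_le_mul_of_nonneg_left ?_ hc.le) (h3 ι s hs.1 hs.2 x)
    have := Finset.single_le_sum (f := fun i => x i ^ 2) (fun i _ => sq_nonneg _)
      (Finset.mem_univ k)
    nlinarith [sq_nonneg (∑ i, x i)]
  rw [form_eq]
  have h6 := h5 fun i => (a i).re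
  have h7 := h5 fun i => (a i).im
  have h8 := mul_pos hc h4
  nlinarith

lemma kap_pos {d : ℕ} (hd : 1 ≤ d) {γ : ℝ} (h0 : 0 < γ) (h2 : γ < 2) : 0 < kap d γ 1 := by
  classical
  obtain ⟨c, hc, h3⟩ := main_lower (E := Eu d) h0 h2 one_pos
  refine hc.trans_le (le_csInf ⟨1, one_mem hd h0⟩ ?_)
  rintro q ⟨ι, _, s, a, hs, ha, rfl⟩
  rw [le_div_iff₀ ha, form_eq, form_eq, mul_add]
  have h5 : ∀ x : ι → ℝ, c * Q (fun i j => RR γ (s i) (s j)) x ≤
      Q (fun i j => RR γ (s i) (s j) ^ 2) x := by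
    intro x
    have := powers s hc (h3 ι s hs.1 hs.2) 1 x
    simp only [pow_one] at this
    have h6 : 0 ≤ ∑ i, R γ (s i) (s i) * x i ^ 2 := Finset.sum_nonneg fun i _ => by
      have := RR_self h0 (s i)
      rw [show R γ (s i) (s i) = RR γ (s i) (s i) from rfl, this]
      positivity
    have h7 : Q (fun i j => RR γ (s i) (s j)) x = Q (fun i j => R γ (s i) (s j)) x := rfl
    have h8 : Q (fun i j => RR γ (s i) (s j) ^ 2) x =
      Q (fun i j => R γ (s i) (s j) ^ (1 + 1)) x := rfl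
    rw [h7, h8]
    nlinarith [mul_nonneg hc.le h6]
  exact add_le_add (h5 _) (h5 _)

lemma kap_two {d : ℕ} (hd : 1 ≤ d) : kap d 2 1 ≤ 0 := by
  refine csInf_le (bdd two_pos le_rfl one_pos) ?_
  refine ⟨Bool, inferInstance, fun b => bif b then (2 : ℝ) • e1 hd else e1 hd,
    fun b => bif b then -1 else 4, ⟨?_, ?_⟩, ?_, ?_⟩
  · rintro (_ | _) <;> simp [e1_norm, norm_smul]
  · rintro (_ | _) (_ | _) h
    · exact absurd rfl h
    · have : e1 hd - (2 : ℝ) • e1 hd = (-1 : ℝ) • e1 hd := by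
        rw [← one_smul ℝ (e1 hd), smul_smul, ← sub_smul]; norm_num
      simp only [cond_false, cond_true]
      rw [this, norm_smul, e1_norm]; norm_num
    · have : (2 : ℝ) • e1 hd - e1 hd = (1 : ℝ) • e1 hd := by
        nth_rw 2 [← one_smul ℝ (e1 hd)]
        rw [← sub_smul]; norm_num
      simp only [cond_false, cond_true]
      rw [this, norm_smul, e1_norm]; norm_num
    · exact absurd rfl h
  · simp only [form, RR_two, Fintype.sum_bool, cond_true, cond_false, real_inner_smul_left,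
      real_inner_smul_right, real_inner_self_eq_norm_sq, e1_norm]
    norm_num
  · simp only [form, RR_two, Fintype.sum_bool, cond_true, cond_false, real_inner_smul_left,
      real_inner_smul_right, real_inner_self_eq_norm_sq, e1_norm]
    norm_num

lemma RR_smul {d : ℕ} {γ r : ℝ} (hr : 0 < r) (s t : Eu d) :
    RR γ (r • s) (r • t) = r ^ γ * RR γ s t := by
  simp only [RR, ← smul_sub, norm_smul, Real.norm_of_nonneg hr.le]
  rw [Real.mul_rpow hr.le (norm_nonneg _), Real.mul_rpow hr.le (norm_nonneg _),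
    Real.mul_rpow hr.le (norm_nonneg _)]
  ring

lemma form_smul {ι : Type} [Fintype ι] (c : ℝ) (M : ι → ι → ℝ) (a : ι → ℂ) :
    form (fun i j => c * M i j) a = c * form M a := by
  rw [form_eq, form_eq, Q_const_mul, Q_const_mul]; ring

lemma Sep_smul {d : ℕ} {ι : Type} {δ r : ℝ} (hr : 0 < r) {s : ι → Eu d} (hs : Sep δ s) :
    Sep (r * δ) (fun i => r • s i) := by
  refine ⟨fun i => ?_, fun i j h => ?_⟩
  · rw [norm_smul, Real.norm_of_nonneg hr.le]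
    exact mul_le_mul_of_nonneg_left (hs.1 i) hr.le
  · rw [← smul_sub, norm_smul, Real.norm_of_nonneg hr.le]
    exact mul_le_mul_of_nonneg_left (hs.2 i j h) hr.le

lemma mem_smul {d : ℕ} {γ δ r : ℝ} (hr : 0 < r) {q : ℝ}
    (hq : q ∈ {q | ∃ (ι : Type) (_ : Fintype ι) (s : ι → Eu d) (a : ι → ℂ), Sep δ s ∧
    0 < form (fun i j => RR γ (s i) (s j)) a ∧
    q = form (fun i j => RR γ (s i) (s j) ^ 2) a / form (fun i j => RR γ (s i) (s j)) a}) :
    r ^ γ * q ∈ {q | ∃ (ι : Type) (_ : Fintype ι) (s : ι → Eu d) (a : ι → ℂ), Sep (r * δ) s ∧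
    0 < form (fun i j => RR γ (s i) (s j)) a ∧
    q = form (fun i j => RR γ (s i) (s j) ^ 2) a /
      form (fun i j => RR γ (s i) (s j)) a} := by
  obtain ⟨ι, _, s, a, hs, ha, rfl⟩ := hq
  have hrγ : 0 < r ^ γ := Real.rpow_pos_of_pos hr _
  refine ⟨ι, inferInstance, fun i => r • s i, a, Sep_smul hr hs, ?_, ?_⟩
  · simp only [RR_smul hr]
    rw [form_smul]
    positivity
  · simp only [RR_smul hr, mul_pow]
    rw [form_smul (r ^ γ) (fun i j => RR γ (s i) (s j)),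
      form_smul ((r ^ γ) ^ 2) (fun i j => RR γ (s i) (s j) ^ 2)]
    field_simp

lemma kap_scale {d : ℕ} {γ δ : ℝ} (hδ : 0 < δ) : kap d γ δ = δ ^ γ * kap d γ 1 := by
  rw [kap, kap, ← smul_eq_mul, ← Real.sInf_smul_of_nonneg (Real.rpow_nonneg hδ.le _)]
  congr 1
  ext q
  rw [Set.mem_smul_set]
  constructor
  · intro hq
    have h1 := mem_smul (r := δ⁻¹) (inv_pos.2 hδ) hq
    rw [inv_mul_cancel₀ hδ.ne'] at h1
    refine ⟨_, h1, ?_⟩
    rw [smul_eq_mul, ← mul_assoc, ← Real.mul_rpow hδ.le (inv_pos.2 hδ).le,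
      mul_inv_cancel₀ hδ.ne', Real.one_rpow, one_mul]
  · rintro ⟨q', hq', rfl⟩
    have h1 := mem_smul (r := δ) hδ hq'
    rwa [mul_one] at h1

/-! ### The torus -/

lemma ch_mul_conj {d : ℕ} (n m : Fin d → ℤ) (x : Fin d → ℝ) :
    ch n x * (starRingEnd ℂ) (ch m x) = ch (n - m) x := by
  simp only [ch]
  rw [← Complex.exp_conj, ← Complex.exp_add]
  congr 1
  rw [map_mul, Complex.conj_I, map_sum]
  simp only [map_mul, Complex.conj_ofReal, map_intCast, Pi.sub_apply, Int.cast_sub,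
    sub_mul, Finset.sum_sub_distrib]
  ring

lemma fr_sub {d : ℕ} (n m : Fin d → ℤ) : fr (n - m) = fr n - fr m := by
  ext k; simp [fr]

lemma fr_norm {d : ℕ} {n : Fin d → ℤ} (hn : n ≠ 0) : 1 ≤ ‖fr n‖ := by
  obtain ⟨k, hk⟩ := Function.ne_iff.1 hn
  have h1 : (1 : ℝ) ≤ ‖(fr n) k‖ := by
    have : (1 : ℤ) ≤ |n k| := Int.one_le_abs hk
    have h2 : ((1 : ℤ) : ℝ) ≤ (|n k| : ℤ) := by exact_mod_cast this
    simpa [fr] using h2
  exact h1.trans (PiLp.norm_apply_le _ _)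

lemma Gam_sum {d : ℕ} {γ : ℝ} (L : ((Fin d → ℝ) → ℂ) →ₗ[ℂ] ((Fin d → ℝ) → ℂ))
    (hL : ∀ n, L (ch n) = (-(‖fr n‖ ^ γ : ℝ) : ℂ) • ch n) (F : Finset (Fin d → ℤ)) (k : ℕ)
    (a b : (Fin d → ℤ) → ℂ) :
    Gam L k (∑ n ∈ F, a n • ch n) (∑ m ∈ F, b m • ch m) =
      ∑ n ∈ F, ∑ m ∈ F, (a n * (starRingEnd ℂ) (b m) * ((RR γ (fr n) (fr m) ^ k : ℝ) : ℂ)) •
        ch (n - m) := by
  induction k generalizing a b with
  | zero =>
    funext x
    simp only [Gam, Finset.sum_apply, Pi.smul_apply, smul_eq_mul, map_sum, map_mul,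
      Finset.sum_mul_sum, pow_zero, Complex.ofReal_one, mul_one]
    refine Finset.sum_congr rfl fun n _ => Finset.sum_congr rfl fun m _ => ?_
    rw [← ch_mul_conj]; ring
  | succ k ih =>
    have hLs : ∀ c : (Fin d → ℤ) → ℂ, L (∑ n ∈ F, c n • ch n) =
        ∑ n ∈ F, (c n * (-(‖fr n‖ ^ γ : ℝ) : ℂ)) • ch n := by
      intro c
      rw [map_sum]
      refine Finset.sum_congr rfl fun n _ => ?_
      rw [map_smul, hL, smul_smul]
    simp only [Gam]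
    rw [hLs, hLs, ih, ih, ih]
    simp only [map_sum, map_smul, hL, ← Finset.sum_sub_distrib, Finset.smul_sum, smul_smul,
      ← sub_smul]
    refine Finset.sum_congr rfl fun n _ => Finset.sum_congr rfl fun m _ => ?_
    congr 1
    simp only [map_mul, map_neg, Complex.conj_ofReal, fr_sub]
    rw [pow_succ]
    simp only [RR]
    push_cast
    ring

lemma Gam_eval {d : ℕ} {γ : ℝ} (h0 : 0 < γ) (L : ((Fin d → ℝ) → ℂ) →ₗ[ℂ] ((Fin d → ℝ) → ℂ))
    (hL : ∀ n, L (ch n) = (-(‖fr n‖ ^ γ : ℝ) : ℂ) • ch n) (F : Finset (Fin d → ℤ)) (k : ℕ)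
    (a : (Fin d → ℤ) → ℂ) (x : Fin d → ℝ) :
    Gam L (k + 1) (∑ n ∈ F, a n • ch n) (∑ m ∈ F, a m • ch m) x =
      ((form (fun i j : {n // n ∈ F.erase 0} => RR γ (fr i.1) (fr j.1) ^ (k + 1))
        (fun i => a i.1 * ch i.1 x) : ℝ) : ℂ) := by
  classical
  rw [Gam_sum L hL]
  have hz : ∀ m : Fin d → ℤ, RR γ (fr 0) (fr m) = 0 := by
    intro m
    have : fr (0 : Fin d → ℤ) = 0 := by ext k; simp [fr]
    rw [this]
    simp [RR, Real.zero_rpow h0.ne']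
  have hz' : ∀ m : Fin d → ℤ, RR γ (fr m) (fr 0) = 0 := fun m => by
    rw [show RR γ (fr m) (fr 0) = RR γ (fr 0) (fr m) from R_symm γ _ _, hz]
  have e1 : ∑ n ∈ F, ∑ m ∈ F, (a n * (starRingEnd ℂ) (a m) *
      ((RR γ (fr n) (fr m) ^ (k + 1) : ℝ) : ℂ)) • ch (n - m) =
      ∑ n ∈ F.erase 0, ∑ m ∈ F.erase 0, (a n * (starRingEnd ℂ) (a m) *
      ((RR γ (fr n) (fr m) ^ (k + 1) : ℝ) : ℂ)) • ch (n - m) := by
    rw [← Finset.sum_erase F (a := (0 : Fin d → ℤ))]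
    · refine Finset.sum_congr rfl fun n _ => ?_
      rw [← Finset.sum_erase F (a := (0 : Fin d → ℤ))]
      simp [hz']
    · simp [hz]
  rw [e1, Finset.sum_apply, ← Finset.sum_coe_sort]
  have e2 : ∀ i : {n // n ∈ F.erase 0}, (∑ m ∈ F.erase 0, (a i.1 * (starRingEnd ℂ) (a m) *
      ((RR γ (fr i.1) (fr m) ^ (k + 1) : ℝ) : ℂ)) • ch (i.1 - m)) x =
      ∑ j : {n // n ∈ F.erase 0}, (a i.1 * ch i.1 x) *
        (((RR γ (fr i.1) (fr j.1) ^ (k + 1) : ℝ) : ℂ)) * (starRingEnd ℂ) (a j.1 * ch j.1 x) := by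
    intro i
    rw [Finset.sum_apply, ← Finset.sum_coe_sort]
    refine Finset.sum_congr rfl fun j _ => ?_
    rw [Pi.smul_apply, smul_eq_mul, ← ch_mul_conj, map_mul]; ring
  rw [Finset.sum_congr rfl fun i _ => e2 i]
  have e3 : ∀ (b : {n // n ∈ F.erase 0} → ℂ), ∑ i, ∑ j, b i *
      (((RR γ (fr i.1) (fr j.1) ^ (k + 1) : ℝ) : ℂ)) * (starRingEnd ℂ) (b j) =
      ((form (fun i j : {n // n ∈ F.erase 0} => RR γ (fr i.1) (fr j.1) ^ (k + 1)) b : ℝ) : ℂ) := by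
    intro b
    have hc : ∑ i, ∑ j, b i *
      (((RR γ (fr i.1) (fr j.1) ^ (k + 1) : ℝ) : ℂ)) * (starRingEnd ℂ) (b j) =
      ∑ i, ∑ j, (starRingEnd ℂ) (b i) *
      (((RR γ (fr i.1) (fr j.1) ^ (k + 1) : ℝ) : ℂ)) * b j := by
      rw [Finset.sum_comm]
      refine Finset.sum_congr rfl fun i _ => Finset.sum_congr rfl fun j _ => ?_
      rw [show RR γ (fr j.1) (fr i.1) = RR γ (fr i.1) (fr j.1) from R_symm γ _ _]
      ring
    rw [hc, form]
    refine (Complex.conj_eq_iff_re.1 ?_).symm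
    rw [map_sum]
    simp only [map_sum, map_mul, Complex.conj_conj, Complex.conj_ofReal]
    exact hc
  exact e3 _

/-- The problem's matrix `R_H(i,j)`, `1 ≤ i, j ≤ N`, `2H = γ`. -/
noncomputable def RN (γ : ℝ) {N : ℕ} (i j : Fin N) : ℝ :=
  (|((i : ℕ) : ℝ) + 1| ^ γ + |((j : ℕ) : ℝ) + 1| ^ γ -
    |(((i : ℕ) : ℝ) + 1) - (((j : ℕ) : ℝ) + 1)| ^ γ) / 2

lemma single_sub' (a b : ℝ) : (EuclideanSpace.single (0 : Fin 1) (a - b) : Eu 1) =
    EuclideanSpace.single (0 : Fin 1) a - EuclideanSpace.single (0 : Fin 1) b := by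
  ext k
  simp [Subsingleton.elim k 0]

lemma single_norm' (a : ℝ) : ‖(EuclideanSpace.single (0 : Fin 1) a : Eu 1)‖ = |a| := by
  simp

lemma RN_eq (γ : ℝ) {N : ℕ} (i j : Fin N) : RN γ i j =
    RR γ (EuclideanSpace.single (0 : Fin 1) (((i : ℕ) : ℝ) + 1))
      (EuclideanSpace.single (0 : Fin 1) (((j : ℕ) : ℝ) + 1)) := by
  rw [RN, RR, ← single_sub']
  simp only [single_norm']

lemma sepN (N : ℕ) : Sep 1 (fun i : Fin N =>
    (EuclideanSpace.single (0 : Fin 1) (((i : ℕ) : ℝ) + 1) : Eu 1)) := by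
  refine ⟨fun i => ?_, fun i j h => ?_⟩
  · rw [single_norm']
    exact le_trans (by linarith [Nat.cast_nonneg (α := ℝ) (i : ℕ)]) (le_abs_self _)
  · rw [← single_sub', single_norm']
    have h1 : ((i : ℕ) : ℤ) - ((j : ℕ) : ℤ) ≠ 0 := by
      intro h'
      exact h (Fin.ext (by omega))
    have h3 : ((1 : ℤ) : ℝ) ≤ (|((i : ℕ) : ℤ) - ((j : ℕ) : ℤ)| : ℤ) := by
      exact_mod_cast Int.one_le_abs h1
    push_cast at h3
    rwa [add_sub_add_right_eq_sub]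

/-- **Main theorem.** Let `d ≥ 1` and `0 < γ ≤ 2`.
(1) `κ_d(γ,1) > 0` iff `γ < 2`; (2) `κ_d(γ,1) ≤ 1`; (3) `κ_d(γ,δ) = δ^γ κ_d(γ,1)` for `δ > 0`;
(4) for `γ < 2` the form of `R_γ` is positive definite on every `δ`-separated configuration, and
for all `γ ≤ 2` consecutive Hadamard powers satisfy `R^{∘(k+2)} ≥ κ_d(γ,δ) R^{∘(k+1)}`;
(5) for every linear operator `L` acting on the trigonometric polynomials of `𝕋^d` as
`-(-Δ)^{γ/2}` and every trigonometric polynomial `f`, the iterated carré du champ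
`Γ_k(f,f)`, `k ≥ 1`, is real and `Γ_{k+1}(f,f) ≥ κ_d(γ,1) Γ_k(f,f)` pointwise;
(6) the problem's matrices: `R_H^{∘2} ≥ κ_1(γ,1) R_H` for every `N`. -/
theorem result (d : ℕ) (hd : 1 ≤ d) (γ : ℝ) (h0 : 0 < γ) (h2 : γ ≤ 2) :
    (0 < kap d γ 1 ↔ γ < 2) ∧ kap d γ 1 ≤ 1 ∧ (∀ δ, 0 < δ → kap d γ δ = δ ^ γ * kap d γ 1) ∧
    (∀ (δ : ℝ), 0 < δ → ∀ (ι : Type) [Fintype ι] (s : ι → Eu d), Sep δ s → ∀ a : ι → ℂ,
      (γ < 2 → a ≠ 0 → 0 < form (fun i j => RR γ (s i) (s j)) a) ∧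
      ∀ k : ℕ, kap d γ δ * form (fun i j => RR γ (s i) (s j) ^ (k + 1)) a ≤
        form (fun i j => RR γ (s i) (s j) ^ (k + 2)) a) ∧
    (∀ L : ((Fin d → ℝ) → ℂ) →ₗ[ℂ] ((Fin d → ℝ) → ℂ),
      (∀ n, L (ch n) = (-(‖fr n‖ ^ γ : ℝ) : ℂ) • ch n) →
      ∀ f ∈ Submodule.span ℂ (Set.range (ch (d := d))), ∀ (k : ℕ) (x : Fin d → ℝ), 1 ≤ k →
        (Gam L k f f x).im = 0 ∧
        kap d γ 1 * (Gam L k f f x).re ≤ (Gam L (k + 1) f f x).re) ∧
    (∀ (N : ℕ) (a : Fin N → ℂ),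
      kap 1 γ 1 * form (RN γ) a ≤ form (fun i j => RN γ i j ^ 2) a) := by
  refine ⟨⟨fun h => lt_of_le_of_ne h2 fun h' => ?_, kap_pos hd h0⟩,
    csInf_le (bdd h0 h2 one_pos) (one_mem hd h0), fun δ hδ => kap_scale hδ,
    fun δ hδ ι _ s hs a => ⟨fun h ha => form_pos h0 h hδ hs ha, fun k => kap_pow h0 h2 hδ hs k a⟩,
    ?_, fun N a => ?_⟩
  · subst h'
    exact absurd h (not_lt.2 (kap_two hd))
  · intro L hL f hf k x hk
    obtain ⟨k, rfl⟩ := Nat.exists_eq_add_of_le' hk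
    obtain ⟨c, rfl⟩ := (Finsupp.mem_span_range_iff_exists_finsupp).1 hf
    have h1 := Gam_eval h0 L hL c.support k c x
    have h3 := Gam_eval h0 L hL c.support (k + 1) c x
    rw [Finsupp.sum, h1, h3]
    refine ⟨Complex.ofReal_im _, ?_⟩
    rw [Complex.ofReal_re, Complex.ofReal_re]
    refine kap_pow h0 h2 one_pos (s := fun i : {n // n ∈ c.support.erase 0} => fr i.1)
      ⟨fun i => fr_norm (Finset.ne_of_mem_erase i.2), fun i j hij => ?_⟩ k _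
    rw [← fr_sub]
    exact fr_norm (sub_ne_zero.2 fun h => hij (Subtype.ext h))
  · have h1 := kap_pow h0 h2 one_pos (sepN N) 0 a
    simp only [zero_add, pow_one] at h1
    have e1 : RN γ = fun i j : Fin N => RR γ (EuclideanSpace.single (0 : Fin 1)
        (((i : ℕ) : ℝ) + 1)) (EuclideanSpace.single (0 : Fin 1) (((j : ℕ) : ℝ) + 1)) := by
      funext i j
      exact RN_eq γ i j
    rw [e1]
    exact h1

end Pool.Agent.Results.MP_271f9a_pr.SeparatedFields
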